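import Mathlib
import Pool.Agent.MP_55a818_lc.H28.Defs
import Pool.Agent.MP_55a818_lc.H28.NatLower

/-!
The halting degree is the degree of topological categoricity of the countably infinite discrete
space, so some noncomputable c.e. degree is a degree of topological categoricity.
-/

namespace Pool.Agent.Results.MP_55a818_lc.HaltDegree

open Pool.Agent.MP_55a818_lc.H28

/-- The halting set: the codes `⟨e, n⟩` such that the `e`-th program halts on input `n`. -/
def K : Set ℕ :=
  {z | ((Denumerable.ofNat Nat.Partrec.Code z.unpair.1).eval z.unpair.2).Dom}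

theorem result :
    REPred (fun z => z ∈ K) ∧ ¬ ComputablePred (fun z => z ∈ K) ∧ CompPolish ℕ ∧ IsDegCat K ℕ :=
  ⟨halt_re, halt_not_computable, isDegCat_halt_nat⟩

end Pool.Agent.Results.MP_55a818_lc.HaltDegree
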