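import Mathlib
import Pool.Agent.MP_55a818_lc.H28.Defs
import Pool.Agent.MP_55a818_lc.H28.Main

/-!
Some c.e. degree is not the degree of topological categoricity of any computable Polish space.
-/

namespace Pool.Agent.Results.MP_55a818_lc.NotAllCE

open Pool.Agent.MP_55a818_lc.H28

theorem result : ∃ D : Set ℕ, REPred (fun z => z ∈ D) ∧
    ∀ (X : Type) [TopologicalSpace X], CompPolish X → ¬ IsDegCat D X :=
  exists_ce_not_degCat

end Pool.Agent.Results.MP_55a818_lc.NotAllCE
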